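import Mathlib

/-!
# Counterexamples to the Kelly–Ulam conjecture give counterexamples to Q1

Problem MP_87adae_co (reconstruction of switching classes).
-/

set_option autoImplicit false

namespace Pool.Agent.Results.MP_87adae_co.KellyUlam

open Sum

variable {V W V' W' : Type}

/-- The graph obtained from `X` by switching on `τ`. -/
def sw (X : SimpleGraph V) (τ : Set V) : SimpleGraph V where
  Adj u w := u ≠ w ∧ Xor (X.Adj u w) (Xor (u ∈ τ) (w ∈ τ))
  symm := ⟨fun u w h => ⟨h.1.symm, by
    have := h.2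
    rw [X.adj_comm, xor_comm (w ∈ τ)]
    exact this⟩⟩
  loopless := ⟨fun u h => h.1 rfl⟩

/-- `X` and `Y` are switching equivalent. -/
def SwEq (X : SimpleGraph V) (Y : SimpleGraph W) : Prop :=
  ∃ τ : Set V, Nonempty (Y ≃g sw X τ)

/-- The card `G - v`. -/
def cardOf (G : SimpleGraph V) (v : V) : SimpleGraph {x : V // x ≠ v} :=
  G.comap Subtype.val

/-- The decks can be matched so that matched cards are switching equivalent. -/
def DeckEq (G : SimpleGraph V) (H : SimpleGraph W) : Prop :=
  ∃ π : V ≃ W, ∀ v, SwEq (cardOf G v) (cardOf H (π v))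

/-- `G` and `H` are hypomorphic: the decks can be matched so that matched cards are isomorphic. -/
def Hypomorphic (G : SimpleGraph V) (H : SimpleGraph W) : Prop :=
  ∃ π : V ≃ W, ∀ v, Nonempty (cardOf G v ≃g cardOf H (π v))

/-- `G` together with isolated vertices, one for each element of `M`. -/
def pad (G : SimpleGraph V) (M : Type) : SimpleGraph (V ⊕ M) where
  Adj x y := ∃ u v, x = inl u ∧ y = inl v ∧ G.Adj u v
  symm := ⟨fun _ _ ⟨u, v, hx, hy, h⟩ => ⟨v, u, hy, hx, h.symm⟩⟩
  loopless := ⟨by
    rintro _ ⟨u, v, rfl, h, hh⟩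
    cases h
    exact hh.ne rfl⟩

theorem pad_inl (G : SimpleGraph V) (M : Type) (u v : V) :
    (pad G M).Adj (inl u) (inl v) ↔ G.Adj u v := by
  constructor
  · rintro ⟨u', v', h1, h2, h⟩
    cases h1
    cases h2
    exact h
  · intro h
    exact ⟨u, v, rfl, rfl, h⟩

theorem pad_inr_left (G : SimpleGraph V) (M : Type) (i : M) (y : V ⊕ M) :
    ¬ (pad G M).Adj (inr i) y := by
  rintro ⟨u, v, h, -⟩
  cases h

theorem pad_inr_right (G : SimpleGraph V) (M : Type) (i : M) (y : V ⊕ M) :
    ¬ (pad G M).Adj y (inr i) := fun h => pad_inr_left G M i y h.symm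

/-! ## Switching equivalence and isomorphisms -/

theorem swEq_congr {X : SimpleGraph V} {X' : SimpleGraph V'} {Y : SimpleGraph W}
    {Y' : SimpleGraph W'} (f : X ≃g X') (g : Y ≃g Y') (h : SwEq X Y) : SwEq X' Y' := by
  obtain ⟨τ, ⟨φ⟩⟩ := h
  refine ⟨f.symm ⁻¹' τ, ⟨?_⟩⟩
  have k : sw X τ ≃g sw X' (f.symm ⁻¹' τ) :=
    { toEquiv := f.toEquiv
      map_rel_iff' := by
        intro a b
        have h1 : f.symm (f a) = a := f.symm_apply_apply a
        have h2 : f.symm (f b) = b := f.symm_apply_apply b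
        have h3 : X'.Adj (f a) (f b) ↔ X.Adj a b := f.map_adj_iff
        change (f a ≠ f b ∧ Xor (X'.Adj (f a) (f b))
          (Xor (f.symm (f a) ∈ τ) (f.symm (f b) ∈ τ))) ↔
          (a ≠ b ∧ Xor (X.Adj a b) (Xor (a ∈ τ) (b ∈ τ)))
        rw [h1, h2, h3, f.injective.ne_iff] }
  exact g.symm.trans (φ.trans k)

theorem swEq_of_iso {X : SimpleGraph V} {Y : SimpleGraph W} (f : X ≃g Y) : SwEq X Y := by
  refine ⟨∅, ⟨?_⟩⟩
  have k : X ≃g sw X ∅ :=
    { toEquiv := Equiv.refl V
      map_rel_iff' := by
        intro a b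
        change (a ≠ b ∧ Xor (X.Adj a b) (Xor (a ∈ (∅ : Set V)) (b ∈ (∅ : Set V)))) ↔ X.Adj a b
        simp only [Set.mem_empty_iff_false, Xor, not_false_iff, and_true, or_false,
          false_and, or_self]
        exact ⟨fun h => h.2, fun h => ⟨h.ne, h⟩⟩ }
  exact f.symm.trans k

/-! ## Isomorphisms of padded graphs -/

/-- padding isomorphic graphs -/
def padIso {G : SimpleGraph V} {H : SimpleGraph W} {M N : Type} (f : G ≃g H) (e : M ≃ N) :
    pad G M ≃g pad H N where
  toEquiv := Equiv.sumCongr f.toEquiv e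
  map_rel_iff' := by
    rintro (a | a) (b | b)
    · change (pad H N).Adj (inl (f a)) (inl (f b)) ↔ _
      rw [pad_inl, pad_inl]
      exact f.map_adj_iff
    · exact iff_of_false (pad_inr_right H N _ _) (pad_inr_right G M _ _)
    · exact iff_of_false (pad_inr_left H N _ _) (pad_inr_left G M _ _)
    · exact iff_of_false (pad_inr_left H N _ _) (pad_inr_left G M _ _)

/-- deleting a vertex of `G` from the padded graph -/
def cardInl (G : SimpleGraph V) (M : Type) (v : V) :
    cardOf (pad G M) (inl v) ≃g pad (cardOf G v) M where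
  toFun x := match x with
    | ⟨inl u, h⟩ => inl ⟨u, fun h' => h (h' ▸ rfl)⟩
    | ⟨inr i, _⟩ => inr i
  invFun x := match x with
    | inl u => ⟨inl u.1, fun h => u.2 (inl.inj h)⟩
    | inr i => ⟨inr i, fun h => by cases h⟩
  left_inv := by rintro ⟨(u | i), h⟩ <;> rfl
  right_inv := by rintro (u | i) <;> rfl
  map_rel_iff' := by
    rintro ⟨(a | a), ha⟩ ⟨(b | b), hb⟩
    · change (pad (cardOf G v) M).Adj (inl _) (inl _) ↔ (pad G M).Adj (inl a) (inl b)
      rw [pad_inl, pad_inl]
      rfl
    · exact iff_of_false (pad_inr_right _ M _ _) (pad_inr_right G M _ _)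
    · exact iff_of_false (pad_inr_left _ M _ _) (pad_inr_left G M _ _)
    · exact iff_of_false (pad_inr_left _ M _ _) (pad_inr_left G M _ _)

/-- deleting an isolated vertex from the padded graph -/
def cardInr (G : SimpleGraph V) (M : Type) (i : M) :
    cardOf (pad G M) (inr i) ≃g pad G {j : M // j ≠ i} where
  toFun x := match x with
    | ⟨inl u, _⟩ => inl u
    | ⟨inr j, h⟩ => inr ⟨j, fun h' => h (h' ▸ rfl)⟩
  invFun x := match x with
    | inl u => ⟨inl u, fun h => by cases h⟩
    | inr j => ⟨inr j.1, fun h => j.2 (inr.inj h)⟩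
  left_inv := by rintro ⟨(u | i), h⟩ <;> rfl
  right_inv := by rintro (u | i) <;> rfl
  map_rel_iff' := by
    rintro ⟨(a | a), ha⟩ ⟨(b | b), hb⟩
    · change (pad G _).Adj (inl a) (inl b) ↔ (pad G M).Adj (inl a) (inl b)
      rw [pad_inl, pad_inl]
    · exact iff_of_false (pad_inr_right G _ _ _) (pad_inr_right G M _ _)
    · exact iff_of_false (pad_inr_left G _ _ _) (pad_inr_left G M _ _)
    · exact iff_of_false (pad_inr_left G _ _ _) (pad_inr_left G M _ _)

/-! ## Many isolated vertices: switching equivalence is isomorphism -/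

theorem exists_inr [Finite V] {M : Type} [Finite M] (h : Nat.card V < Nat.card M)
    (φ : W ⊕ M ≃ V ⊕ M) : ∃ i j : M, φ (inr i) = inr j := by
  by_contra hc
  push Not at hc
  have h1 : ∀ i : M, ∃ v : V, φ (inr i) = inl v := by
    intro i
    rcases hφ : φ (inr i) with v | j
    · exact ⟨v, rfl⟩
    · exact absurd hφ (hc i j)
  choose g hg using h1
  have hinj : Function.Injective g := by
    intro a b hab
    have := hg a
    rw [hab, ← hg b] at this
    exact inr.inj (φ.injective this)
  exact absurd (Nat.card_le_card_of_injective g hinj) (by omega)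

theorem iso_of_swEq_pad {G : SimpleGraph V} {H : SimpleGraph W} {M : Type} [Finite V] [Finite M]
    (h : Nat.card V < Nat.card M) (hs : SwEq (pad G M) (pad H M)) :
    Nonempty (pad H M ≃g pad G M) := by
  obtain ⟨τ, ⟨φ⟩⟩ := hs
  obtain ⟨i, j, hij⟩ := exists_inr h φ.toEquiv
  have hij' : φ (inr i) = inr j := hij
  have hadj : ∀ x y, (pad H M).Adj x y ↔ (φ x ≠ φ y ∧ Xor ((pad G M).Adj (φ x) (φ y))
      (Xor (φ x ∈ τ) (φ y ∈ τ))) := fun x y => φ.map_adj_iff.symm
  -- all vertices different from `inr i` lie on the same side as `inr i`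
  have hside : ∀ x, (φ x ∈ τ ↔ inr j ∈ τ) := by
    intro x
    by_cases hx : x = inr i
    · rw [hx, hij']
    · have h1 := (hadj x (inr i)).not.1 (pad_inr_right H M _ _)
      rw [hij'] at h1
      have h2 : φ x ≠ inr j := fun h => hx (φ.injective (h.trans hij'.symm))
      have h3 := pad_inr_right G M j (φ x)
      by_contra h4
      apply h1
      refine ⟨h2, Or.inr ⟨?_, h3⟩⟩
      rcases not_iff.1 h4 |>.symm with h5
      unfold Xor
      tauto
  refine ⟨{ toEquiv := φ.toEquiv, map_rel_iff' := ?_ }⟩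
  intro x y
  change (pad G M).Adj (φ x) (φ y) ↔ (pad H M).Adj x y
  rw [hadj, hside x, hside y]
  constructor
  · intro h1
    exact ⟨h1.ne, Or.inl ⟨h1, fun h2 => by unfold Xor at h2; tauto⟩⟩
  · rintro ⟨-, h2⟩
    unfold Xor at h2
    tauto

/-! ## Cancelling isolated vertices -/

theorem cancel_option {V W : Type} {G : SimpleGraph (Option V)} {H : SimpleGraph (Option W)}
    (hG : ∀ x, ¬ G.Adj none x) (hH : ∀ x, ¬ H.Adj none x) (φ : G ≃g H) :
    Nonempty (G.comap some ≃g H.comap some) := by
  refine ⟨{ toEquiv := Equiv.removeNone φ.toEquiv, map_rel_iff' := ?_ }⟩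
  have key : ∀ a : V, φ (some a) = some (Equiv.removeNone φ.toEquiv a) ∨
      (φ (some a) = none ∧ φ none = some (Equiv.removeNone φ.toEquiv a)) := by
    intro a
    rcases h : φ (some a) with _ | b
    · right
      refine ⟨rfl, ?_⟩
      exact (Equiv.removeNone_none φ.toEquiv h).symm
    · left
      exact h.symm.trans ((Equiv.removeNone_some φ.toEquiv ⟨b, h⟩).symm)
  have hG' : ∀ x, ¬ G.Adj x none := fun x h => hG x h.symm
  have hH' : ∀ x, ¬ H.Adj x none := fun x h => hH x h.symm
  intro a b
  change H.Adj (some (Equiv.removeNone φ.toEquiv a)) (some (Equiv.removeNone φ.toEquiv b)) ↔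
    G.Adj (some a) (some b)
  have h1 : ∀ x y, H.Adj (φ x) (φ y) ↔ G.Adj x y := fun x y => φ.map_adj_iff
  rcases key a with ha | ⟨ha, ha'⟩ <;> rcases key b with hb | ⟨hb, hb'⟩
  · rw [← ha, ← hb, h1]
  · rw [← ha, ← hb', h1]
    refine iff_of_false (hG' _) fun h => hH' (φ (some a)) ?_
    rw [← hb, h1]
    exact h
  · rw [← ha', ← hb, h1]
    refine iff_of_false (hG _) fun h => hH (φ (some b)) ?_
    rw [← ha, h1]
    exact h
  · rw [← ha', ← hb', h1]
    refine iff_of_false (hG _) fun h => hH (φ (some b)) ?_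
    rw [← ha, h1]
    exact h

/-- one isolated vertex split off -/
def optEquiv (V : Type) (m : ℕ) : Option (V ⊕ Fin m) ≃ V ⊕ Fin (m + 1) where
  toFun x := match x with
    | none => inr 0
    | some (inl v) => inl v
    | some (inr i) => inr i.succ
  invFun x := match x with
    | inl v => some (inl v)
    | inr i => Fin.cases none (fun j => some (inr j)) i
  left_inv := by rintro (_ | v | i) <;> rfl
  right_inv := by
    rintro (v | i)
    · rfl
    · refine Fin.cases rfl (fun j => rfl) i

theorem cancel_pad {G : SimpleGraph V} {H : SimpleGraph W} (m : ℕ)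
    (h : Nonempty (pad G (Fin m) ≃g pad H (Fin m))) : Nonempty (G ≃g H) := by
  induction m with
  | zero =>
    obtain ⟨φ⟩ := h
    have e : ∀ {U : Type} (K : SimpleGraph U), Nonempty (K ≃g pad K (Fin 0)) := by
      intro U K
      refine ⟨{ toEquiv := (Equiv.sumEmpty U (Fin 0)).symm, map_rel_iff' := ?_ }⟩
      intro a b
      exact pad_inl K (Fin 0) a b
    obtain ⟨e1⟩ := e G
    obtain ⟨e2⟩ := e H
    exact ⟨e1.trans (φ.trans e2.symm)⟩
  | succ m ih =>
    apply ih
    obtain ⟨φ⟩ := h
    let G' : SimpleGraph (Option (V ⊕ Fin m)) := (pad G (Fin (m + 1))).comap (optEquiv V m)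
    let H' : SimpleGraph (Option (W ⊕ Fin m)) := (pad H (Fin (m + 1))).comap (optEquiv W m)
    have fG : G' ≃g pad G (Fin (m + 1)) := ⟨optEquiv V m, Iff.rfl⟩
    have fH : H' ≃g pad H (Fin (m + 1)) := ⟨optEquiv W m, Iff.rfl⟩
    obtain ⟨ψ⟩ := cancel_option (G := G') (H := H') (fun x h => pad_inr_left G _ _ _ h)
      (fun x h => pad_inr_left H _ _ _ h) (fG.trans (φ.trans fH.symm))
    have e : ∀ {U : Type} (K : SimpleGraph U),
        ((pad K (Fin (m + 1))).comap (optEquiv U m)).comap some = pad K (Fin m) := by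
      intro U K
      ext x y
      rcases x with x | x <;> rcases y with y | y
      · change (pad K (Fin (m + 1))).Adj (inl x) (inl y) ↔ _
        rw [pad_inl, pad_inl]
      · exact iff_of_false (pad_inr_right K _ _ _) (pad_inr_right K _ _ _)
      · exact iff_of_false (pad_inr_left K _ _ _) (pad_inr_left K _ _ _)
      · exact iff_of_false (pad_inr_left K _ _ _) (pad_inr_left K _ _ _)
    have e1 : G'.comap some = pad G (Fin m) := e G
    have e2 : H'.comap some = pad H (Fin m) := e H
    rw [e1, e2] at ψ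
    exact ⟨ψ⟩

/-- Every counterexample to the Kelly–Ulam reconstruction conjecture gives a counterexample to
Q1: if `G` and `H` are hypomorphic graphs on `n` vertices which are not isomorphic, then for some
`m ≤ n + 1` the graphs `G + m K₁` and `H + m K₁` have decks with switching equivalent cards but
are not switching equivalent. -/
theorem result {V W : Type} [Finite V] (G : SimpleGraph V) (H : SimpleGraph W)
    (hyp : Hypomorphic G H) (hne : ¬ Nonempty (G ≃g H)) :
    ∃ m ≤ Nat.card V + 1, DeckEq (pad G (Fin m)) (pad H (Fin m)) ∧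
      ¬ SwEq (pad G (Fin m)) (pad H (Fin m)) := by
  by_contra hcon
  push Not at hcon
  obtain ⟨π, hπ⟩ := hyp
  -- the decks of the padded graphs, once the graphs with one isolated vertex less are equivalent
  have step : ∀ m : ℕ, (∀ m', m = m' + 1 → SwEq (pad G (Fin m')) (pad H (Fin m'))) →
      DeckEq (pad G (Fin m)) (pad H (Fin m)) := by
    intro m hm
    refine ⟨Equiv.sumCongr π (Equiv.refl _), ?_⟩
    rintro (v | i)
    · obtain ⟨f⟩ := hπ v
      exact swEq_of_iso ((cardInl G _ v).trans
        ((padIso f (Equiv.refl _)).trans (cardInl H _ (π v)).symm))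
    · obtain ⟨m', rfl⟩ : ∃ m', m = m' + 1 := ⟨m - 1, by have := i.2; omega⟩
      have e : {j : Fin (m' + 1) // j ≠ i} ≃ Fin m' := (finSuccAboveEquiv i).symm
      exact swEq_congr ((cardInr G _ i).trans (padIso (SimpleGraph.Iso.refl) e)).symm
        ((cardInr H _ i).trans (padIso (SimpleGraph.Iso.refl) e)).symm (hm m' rfl)
  have all : ∀ m ≤ Nat.card V + 1, SwEq (pad G (Fin m)) (pad H (Fin m)) := by
    intro m
    induction m with
    | zero =>
      intro h
      exact hcon 0 h (step 0 fun m' h' => by omega)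
    | succ m ih =>
      intro h
      refine hcon (m + 1) h (step (m + 1) fun m' h' => ?_)
      obtain rfl : m = m' := by omega
      exact ih (by omega)
  have h1 := iso_of_swEq_pad (M := Fin (Nat.card V + 1)) (by simp) (all _ le_rfl)
  apply hne
  obtain ⟨f⟩ := cancel_pad _ h1
  exact ⟨f.symm⟩

end Pool.Agent.Results.MP_87adae_co.KellyUlam
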